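import Mathlib

set_option autoImplicit false

namespace Pool.Agent.H.MP_1b4c08_al
open MvPolynomial RingTheory.Sequence
open scoped Pointwise

section
variable {R : Type} [CommRing R] {J : Ideal R} {f g : R}

theorem reg1 : IsSMulRegular (R ⧸ J) f ↔ ∀ x, f * x ∈ J → x ∈ J :=
  isSMulRegular_quotient_iff_mem_of_smul_mem J f

theorem mem2 (x : R) : Ideal.Quotient.mk J x ∈ (f • ⊤ : Submodule R (R ⧸ J)) ↔ ∃ a, x - f * a ∈ J := by
  rw [Submodule.mem_smul_pointwise_iff_exists]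
  constructor
  · rintro ⟨a, -, e⟩
    obtain ⟨a, rfl⟩ := Ideal.Quotient.mk_surjective a
    exact ⟨a, Ideal.Quotient.eq.1 e.symm⟩
  · exact fun ⟨a, h⟩ => ⟨Ideal.Quotient.mk J a, trivial, (Ideal.Quotient.eq.2 h).symm⟩

theorem reg2 (h : IsSMulRegular (QuotSMulTop f (R ⧸ J)) g) (x a : R) (hx : g * x - f * a ∈ J) :
    ∃ b, x - f * b ∈ J :=
  (mem2 x).1 ((isSMulRegular_quotient_iff_mem_of_smul_mem _ g).1 h _ ((mem2 (g * x)).2 ⟨a, hx⟩))

theorem ne_top {I 𝔪 : Ideal R} (h1 : J ≤ 𝔪) (h2 : I ≤ 𝔪) (h3 : 𝔪 ≠ ⊤) :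
    (⊤ : Submodule R (R ⧸ J)) ≠ I • ⊤ := fun e => by
  have : I • (⊤ : Submodule R (R ⧸ J)) ≤ Submodule.map J.mkQ 𝔪 := Submodule.smul_le.2 fun r hr x _ => by
    obtain ⟨x, rfl⟩ := Ideal.Quotient.mk_surjective x
    exact ⟨r * x, 𝔪.mul_mem_right _ (h2 hr), rfl⟩
  obtain ⟨x, hx, e⟩ := this (e.le (Submodule.mem_top (x := Ideal.Quotient.mk J 1)))
  exact h3 ((Ideal.eq_top_iff_one _).2 (by simpa using sub_mem hx (h1 (Ideal.Quotient.eq.1 e))))

theorem last {Q : Ideal R} {u : R} (hu : u ∉ Q) (h : ∃ t, f ^ t * u ∈ Q) :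
    ∃ a, a * u ∉ Q ∧ f * (a * u) ∈ Q := by
  classical
  have h0 : Nat.find h ≠ 0 := fun e => hu (by simpa [e] using Nat.find_spec h)
  obtain ⟨t, e⟩ := Nat.exists_eq_succ_of_ne_zero h0
  exact ⟨f ^ t, Nat.find_min h (by omega), by
    simpa [e, pow_succ', mul_assoc] using Nat.find_spec h⟩

theorem no_two {J₁ J₂ : Ideal R} {u s : R} (hu : u ∉ J₁ ⊔ J₂) (hf : ∃ t, f ^ t * u ∈ J₁ ⊔ J₂)
    (hg : ∃ t, g ^ t * u ∈ J₁ ⊔ J₂) (hs : ∃ t, s ^ t * u ∈ J₁ ⊔ J₂)
    (h1 : ∀ x, s * x ∈ J₁ → x ∈ J₁) (h2 : ∀ x, s * x ∈ J₂ → x ∈ J₂)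
    (r1 : IsSMulRegular (R ⧸ J₁ ⊓ J₂) f) (r2 : IsSMulRegular (QuotSMulTop f (R ⧸ J₁ ⊓ J₂)) g) :
    False := by
  have pw : ∀ {J : Ideal R}, (∀ x, s * x ∈ J → x ∈ J) → ∀ t x, s ^ t * x ∈ J → x ∈ J :=
    fun h t => by
      induction t with
      | zero => simp
      | succ t ih => exact fun x hx => ih x (h _ (by rwa [pow_succ', mul_assoc] at hx))
  obtain ⟨a₁, h3, h4⟩ := last hu hf
  obtain ⟨a₂, h5, h6⟩ := last (f := g) h3 (hg.imp fun t ht => by
    rw [mul_left_comm]; exact Ideal.mul_mem_left _ _ ht)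
  obtain ⟨t, ht⟩ := hs
  generalize hv : a₂ * (a₁ * u) = v at h5 h6
  obtain ⟨p, hp, a, ha, e1⟩ := Submodule.mem_sup.1 (Ideal.mul_mem_left _ a₂ h4)
  obtain ⟨q, hq, b, hb, e2⟩ := Submodule.mem_sup.1 h6
  obtain ⟨s₁, hs₁, s₂, hs₂, e3⟩ := Submodule.mem_sup.1 (Ideal.mul_mem_left _ (a₂ * a₁) ht)
  rw [mul_left_comm, hv] at e1
  rw [mul_left_comm, mul_assoc, hv] at e3
  have k1 : g * a - f * b ∈ J₁ ⊓ J₂ := ⟨by
    rw [show g * a - f * b = f * q - g * p by linear_combination g * e1 - f * e2]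
    exact sub_mem (J₁.mul_mem_left _ hq) (J₁.mul_mem_left _ hp),
    sub_mem (J₂.mul_mem_left _ ha) (J₂.mul_mem_left _ hb)⟩
  obtain ⟨c, k2, k3⟩ := reg2 r2 _ _ k1
  obtain ⟨k4, k5⟩ := reg1.1 r1 (s₂ - s ^ t * c) ⟨by
    rw [show f * (s₂ - s ^ t * c) = s ^ t * (p + (a - f * c)) - f * s₁ by
      linear_combination f * e3 - s ^ t * e1]
    exact sub_mem (J₁.mul_mem_left _ (add_mem hp k2)) (J₁.mul_mem_left _ hs₁), by
    rw [show f * (s₂ - s ^ t * c) = f * s₂ + s ^ t * ((a - f * c) - a) by ring]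
    exact add_mem (J₂.mul_mem_left _ hs₂) (J₂.mul_mem_left _ (sub_mem k3 ha))⟩
  refine h5 (Submodule.mem_sup.2 ⟨v - c, pw h1 t _ ?_, c, pw h2 t _ ?_, by ring⟩)
  · rw [show s ^ t * (v - c) = s₁ + (s₂ - s ^ t * c) by linear_combination -e3]
    exact add_mem hs₁ k4
  · simpa using sub_mem hs₂ k5

end

variable {σ : Type} [Fintype σ] [DecidableEq σ] {K : Type} [Field K]

/-- Weight outside a face. -/
def wt (F : Finset σ) (α : σ →₀ ℕ) : ℕ := ∑ i, if i ∈ F then 0 else α i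

theorem wt_add (F : Finset σ) (α β : σ →₀ ℕ) : wt F (α + β) = wt F α + wt F β := by
  rw [wt, wt, wt, ← Finset.sum_add_distrib]
  exact Finset.sum_congr rfl fun i _ => by split_ifs <;> simp

theorem wt_single (F : Finset σ) (i : σ) (n : ℕ) :
    wt F (Finsupp.single i n) = if i ∈ F then 0 else n := by
  rw [wt, Finset.sum_eq_single i] <;> simp +contextual [eq_comm]

variable (K) in
/-- Powers of a face prime. -/
def W (F : Finset σ) (m : ℕ) : Ideal (MvPolynomial σ K) where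
  carrier := {h | ∀ α, wt F α < m → coeff α h = 0}
  add_mem' h h' α hα := by rw [coeff_add, h α hα, h' α hα, add_zero]
  zero_mem' _ _ := rfl
  smul_mem' c x h α hα := by
    rw [smul_eq_mul, coeff_mul]
    refine Finset.sum_eq_zero fun p hp => ?_
    rw [← Finset.HasAntidiagonal.mem_antidiagonal.1 hp, wt_add] at hα
    rw [h _ (by omega), mul_zero]

theorem mono_mem {F : Finset σ} {m : ℕ} {α : σ →₀ ℕ} (c : K) (h : m ≤ wt F α) :
    monomial α c ∈ W K F m := fun β hβ => by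
  rw [coeff_monomial, if_neg]
  rintro rfl
  omega

variable (K) in
/-- Face prime. -/
noncomputable def P (F : Finset σ) : Ideal (MvPolynomial σ K) := Ideal.span (X '' {i | i ∉ F})

theorem P_pow (F : Finset σ) (m : ℕ) : P K F ^ m = W K F m := by
  induction m with
  | zero => exact (Ideal.one_eq_top.trans ((Ideal.eq_top_iff_one _).2 fun _ h => by omega).symm)
  | succ m ih =>
    rw [pow_succ, ih]
    refine le_antisymm ?_ fun h hh => ?_
    · rw [P, ← (W K F m).span_eq, Ideal.span_mul_span, Ideal.span_le]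
      rintro _ ⟨h, hh, _, ⟨i, hi, rfl⟩, rfl⟩ α hα
      change coeff α (h * X i) = 0
      rw [coeff_mul_X']
      split_ifs with e
      · refine hh _ ?_
        rw [← Finsupp.sub_add_single_one_cancel (Finsupp.mem_support_iff.1 e), wt_add, wt_single,
          if_neg hi] at hα
        omega
      · rfl
    · rw [h.as_sum]
      refine Ideal.sum_mem _ fun α hα => ?_
      have h1 : m + 1 ≤ wt F α := not_lt.1 fun e => mem_support_iff.1 hα (hh α e)
      obtain ⟨i, -, hi⟩ := Finset.exists_ne_zero_of_sum_ne_zero (by unfold wt at h1; omega :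
        ∑ i, (if i ∈ F then 0 else α i) ≠ 0)
      have h2 : i ∉ F ∧ α i ≠ 0 := by simpa using hi
      rw [← Finsupp.sub_add_single_one_cancel h2.2, wt_add, wt_single, if_neg h2.1] at h1
      rw [← Finsupp.sub_add_single_one_cancel h2.2, ← mul_one (coeff _ h), ← monomial_mul]
      exact Ideal.mul_mem_mul (mono_mem _ (by omega)) (Ideal.subset_span ⟨i, h2.1, rfl⟩)

theorem P_prime (F : Finset σ) : (P K F).IsPrime := by
  let φ : MvPolynomial σ K →ₐ[K] MvPolynomial σ K := aeval fun i => if i ∈ F then X i else 0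
  have : P K F = RingHom.ker φ := le_antisymm (Ideal.span_le.2 (by
    rintro _ ⟨i, hi, rfl⟩
    simpa [φ] using fun h => (hi h).elim)) fun h hh => by
      have : ∀ p, p - φ p ∈ P K F := fun p => by
        induction p using MvPolynomial.induction_on with
        | C c => simp [φ]
        | add p q hp hq => rw [map_add, add_sub_add_comm]; exact add_mem hp hq
        | mul_X p i hp =>
          by_cases hi : i ∈ F
          · simpa [φ, hi, sub_mul] using Ideal.mul_mem_right (X i) _ hp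
          · simpa [φ, hi] using (P K F).mul_mem_left p (Ideal.subset_span ⟨i, hi, rfl⟩)
      simpa [RingHom.mem_ker.1 hh] using this h
  rw [this]
  exact RingHom.ker_isPrime _

theorem sum_reg {F : Finset σ} (hF : F.Nonempty) (m : ℕ) (h : MvPolynomial σ K)
    (hh : (∑ i, X i) * h ∈ W K F m) : h ∈ W K F m := by
  obtain ⟨k, hk⟩ := hF
  by_contra h0
  obtain ⟨α, h1, h2⟩ := (h.support.filter (wt F · < m)).exists_max_image (· k) (by
    obtain ⟨α, e⟩ := not_forall.1 h0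
    exact ⟨α, by simpa [and_comm] using e⟩)
  simp only [Finset.mem_filter, mem_support_iff] at h1 h2
  have := hh (Finsupp.single k 1 + α) (by rw [wt_add, wt_single, if_pos hk, zero_add]; exact h1.2)
  rw [Finset.sum_mul, coeff_sum, Finset.sum_eq_single k, coeff_X_mul] at this
  · exact h1.1 this
  · intro i _ hi
    rw [coeff_X_mul']
    split_ifs with e
    · by_contra h3
      have e' := Finsupp.sub_add_single_one_cancel (Finsupp.mem_support_iff.1 e)
      have := h2 _ ⟨h3, by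
        have := congrArg (wt F) e'
        rw [wt_add, wt_add, wt_single F k, if_pos hk] at this
        omega⟩
      simp [Ne.symm hi] at this
    · rfl
  · simp

end Pool.Agent.H.MP_1b4c08_al
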