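import Pool.Agent.H.MP_1b4c08_al.A

set_option autoImplicit false

set_option linter.unusedSectionVars false

namespace Pool.Agent.H.MP_1b4c08_al
open MvPolynomial RingTheory.Sequence
open scoped Pointwise

variable {σ : Type} [Fintype σ] [DecidableEq σ] {K : Type} [Field K] {ι : Type} [Fintype ι]

theorem minimal (F : ι → Finset σ) (m : ℕ) :
    ⨅ Q ∈ Ideal.minimalPrimes (Ideal.span ((fun s : Finset σ =>
      monomial (∑ i ∈ s, Finsupp.single i 1) (1 : K)) '' {s | ∀ j, ¬ s ⊆ F j})), Q ^ m =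
    ⨅ j, W K (F j) m := by
  have : Ideal.span ((fun s : Finset σ => monomial (∑ i ∈ s, Finsupp.single i 1) (1 : K)) ''
      {s | ∀ j, ¬ s ⊆ F j}) = Finset.univ.inf fun j => P K (F j) := by
    have e : ∀ j, P K (F j) = W K (F j) 1 := fun j => by rw [← P_pow, pow_one]
    simp only [Finset.inf_univ_eq_iInf, e]
    refine le_antisymm (Ideal.span_le.2 ?_) fun h hh => ?_
    · rintro _ ⟨s, hs, rfl⟩
      refine Ideal.mem_iInf.2 fun j => mono_mem _ ?_
      obtain ⟨i, h1, h2⟩ := Finset.not_subset.1 (hs j)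
      rw [← Finset.add_sum_erase _ _ h1, wt_add, wt_single, if_neg h2]
      omega
    · rw [← Set.image_image (monomial · (1 : K)), mem_ideal_span_monomial_image]
      refine fun α hα => ⟨_, ⟨α.support, fun j e => mem_support_iff.1 hα
        (Ideal.mem_iInf.1 hh j α ?_), rfl⟩, fun i => ?_⟩
      · rw [Nat.lt_one_iff]
        exact Finset.sum_eq_zero fun i _ => by
          split_ifs with h
          exacts [rfl, Finsupp.notMem_support_iff.1 fun h' => h (e h')]
      · by_cases h : α i = 0 <;> simp [Finsupp.finsetSum_apply, Finsupp.single_apply, h]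
        omega
  rw [this]
  refine le_antisymm (le_iInf fun j => ?_) (le_iInf₂ fun Q hQ => ?_)
  · have := P_prime (K := K) (F j)
    obtain ⟨Q, hQ, h⟩ := Ideal.exists_minimalPrimes_le (J := P K (F j))
      (Finset.inf_le (f := fun j => P K (F j)) (Finset.mem_univ j))
    exact (iInf₂_le Q hQ).trans ((Ideal.pow_right_mono h m).trans (P_pow _ _).le)
  · obtain ⟨j, -, h⟩ := hQ.1.1.inf_le'.1 hQ.1.2
    exact (iInf_le _ j).trans ((P_pow _ _).ge.trans (Ideal.pow_right_mono h m))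

theorem koszul [Nonempty σ] {F : ι → Finset σ} {m : ℕ} (h2 : ∀ j i, ∃ k ∈ F j, k ≠ i)
    (hc : ∀ α, ∃ j₀, ∀ j, wt (F j) α < m → wt (F j₀) α < m ∧ ∃ k ∈ F j, k ∈ F j₀)
    (b : σ → MvPolynomial σ K) (hb : ∀ i k j, X k * b i - X i * b k ∈ W K (F j) m) :
    ∃ y, ∀ i j, b i - X i * y ∈ W K (F j) m := by
  choose j₀ hj using hc
  have h1 : ∀ i k j α, k ∈ F j → wt (F j) (Finsupp.single i 1 + α) < m →
      coeff (Finsupp.single i 1 + α) (b i) = coeff (Finsupp.single k 1 + α) (b k) := by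
    intro i k j α h h'
    have := hb i k j (Finsupp.single k 1 + (Finsupp.single i 1 + α)) (by
      rwa [wt_add, wt_single, if_pos h, zero_add])
    rwa [coeff_sub, coeff_X_mul, add_left_comm, coeff_X_mul, sub_eq_zero] at this
  choose k₀ hk _ using fun j => h2 j (Classical.arbitrary σ)
  let d := fun i => divMonomial (b i) (Finsupp.single i 1)
  refine ⟨.ofCoeff (Finsupp.onFinset (Finset.univ.biUnion fun i => (d i).support)
    (fun α => coeff α (d (k₀ (j₀ α)))) fun α h => Finset.mem_biUnion.2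
      ⟨_, Finset.mem_univ _, mem_support_iff.2 h⟩), fun i j α hα => ?_⟩
  rw [coeff_sub, coeff_X_mul', sub_eq_zero]
  split_ifs with e
  · obtain ⟨β, rfl⟩ : ∃ β, α = Finsupp.single i 1 + β :=
      ⟨_, (Finsupp.sub_add_single_one_cancel (Finsupp.mem_support_iff.1 e)).symm.trans (add_comm _ _)⟩
    rw [add_tsub_cancel_left]
    obtain ⟨h3, k, h4, h5⟩ := hj β j (by rw [wt_add] at hα; omega)
    rw [h1 i k j β h4 hα, h1 k _ _ β (hk _) (by rwa [wt_add, wt_single, if_pos h5, zero_add])]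
    exact (coeff_divMonomial ..).symm
  · obtain ⟨k, h3, h4⟩ := h2 j i
    have := hb i k j (Finsupp.single k 1 + α) (by rwa [wt_add, wt_single, if_pos h3, zero_add])
    rwa [coeff_sub, coeff_X_mul, coeff_X_mul', if_neg (by simpa [h4.symm] using e), sub_zero] at this

/-- Lengths of regular sequences. -/
def Len (J : Ideal (MvPolynomial σ K)) : Set ℕ := {k : ℕ | ∃ rs : List (MvPolynomial σ K),
  rs.length = k ∧ (∀ x ∈ rs, x ∈ Ideal.span (Set.range (X : σ → MvPolynomial σ K))) ∧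
    IsRegular (MvPolynomial σ K ⧸ J) rs}

theorem sum_mem : (∑ i, X i) ∈ Ideal.span (Set.range (X : σ → MvPolynomial σ K)) :=
  Ideal.sum_mem _ fun i _ => Ideal.subset_span ⟨i, rfl⟩

theorem top' {F : ι → Finset σ} {m : ℕ} (hm : m ≠ 0) (j : ι) {rs : List (MvPolynomial σ K)}
    (h : ∀ x ∈ rs, x ∈ Ideal.span (Set.range (X : σ → MvPolynomial σ K))) :
    (⊤ : Submodule (MvPolynomial σ K) (MvPolynomial σ K ⧸ ⨅ j, W K (F j) m)) ≠
      Ideal.ofList rs • ⊤ :=
  ne_top ((iInf_le _ j).trans ((P_pow _ _).ge.trans ((Ideal.pow_le_self hm).trans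
    (Ideal.span_mono (Set.image_subset_range _ _))))) (Ideal.span_le.2 h)
    (by simpa [P] using (P_prime (K := K) (∅ : Finset σ)).ne_top)

theorem sreg {ι' : Type} {F : ι' → Finset σ} (m : ℕ) (h : ∀ j, (F j).Nonempty) (x : MvPolynomial σ K)
    (hx : (∑ i, X i) * x ∈ ⨅ j, W K (F j) m) : x ∈ ⨅ j, W K (F j) m :=
  Ideal.mem_iInf.2 fun j => sum_reg (h j) m x (Ideal.mem_iInf.1 hx j)

theorem two [Nonempty σ] {F : ι → Finset σ} {m : ℕ} (hm : m ≠ 0) (h2 : ∀ j i, ∃ k ∈ F j, k ≠ i)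
    (hc : ∀ α, ∃ j₀, ∀ j, wt (F j) α < m → wt (F j₀) α < m ∧ ∃ k ∈ F j, k ∈ F j₀) :
    2 ∈ Len (⨅ j, W K (F j) m) := by
  have h1 := sreg (K := K) m fun j => (h2 j (Classical.arbitrary σ)).imp fun _ h => h.1
  obtain ⟨g, hg, h3⟩ := (IsSMulRegular.subsingleton_linearMap_iff (R := MvPolynomial σ K)
    (N := MvPolynomial σ K ⧸ Ideal.span (Set.range (X : σ → MvPolynomial σ K)))
    (M := QuotSMulTop (∑ i, X i : MvPolynomial σ K) (MvPolynomial σ K ⧸ ⨅ j, W K (F j) m))).1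
    (subsingleton_of_forall_eq 0 fun φ => by
      obtain ⟨h, e⟩ := Submodule.Quotient.mk_surjective _ (φ 1)
      obtain ⟨h, rfl⟩ := Ideal.Quotient.mk_surjective h
      have : ∀ i, ∃ b, X i * h - (∑ i, X i) * b ∈ ⨅ j, W K (F j) m := fun i =>
        (mem2 _).1 ((Submodule.Quotient.mk_eq_zero _).1 (by
          have : (X i : MvPolynomial σ K) • (1 : MvPolynomial σ K ⧸
              Ideal.span (Set.range (X : σ → MvPolynomial σ K))) = 0 :=
            Ideal.Quotient.eq_zero_iff_mem.2 (Ideal.mul_mem_right _ _ (Ideal.subset_span ⟨i, rfl⟩))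
          rw [← φ.map_zero, ← this, map_smul, ← e]; rfl))
      choose b hb using this
      obtain ⟨y, hy⟩ := koszul h2 hc b fun i k => Ideal.mem_iInf.1 (h1 _ (by
        convert sub_mem (Ideal.mul_mem_left _ (X i) (hb k)) (Ideal.mul_mem_left _ (X k) (hb i))
          using 1
        ring))
      have : φ 1 = 0 := e.symm.trans ((Submodule.Quotient.mk_eq_zero _).2 ((mem2 _).2 ⟨y, h1 _ (by
        rw [Finset.sum_mul]
        refine Ideal.sum_mem _ fun i _ => ?_
        convert add_mem (hb i) (Ideal.mul_mem_left _ (∑ i, X i) (Ideal.mem_iInf.2 (hy i))) using 1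
        ring)⟩))
      ext
      simpa using this)
  rw [Ideal.annihilator_quotient] at hg
  have h4 : ∀ x ∈ [∑ i, X i, g], x ∈ Ideal.span (Set.range (X : σ → MvPolynomial σ K)) := by
    simp [sum_mem, hg]
  exact ⟨_, rfl, h4, (isWeaklyRegular_cons_iff _ _ _).2 ⟨reg1.2 h1,
    (isWeaklyRegular_singleton_iff _ _).2 h3⟩, top' hm (hc 0).choose h4⟩

theorem one {F : ι → Finset σ} {n : ℕ} (h1 : ∀ j, (F j).Nonempty) (j₁ j₂ : ι)
    (h12 : ∀ i ∈ F j₁, i ∉ F j₂) (α : σ →₀ ℕ) (h2 : ∀ j, wt (F j) α < n ↔ j = j₁ ∨ j = j₂) :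
    sSup (Len (⨅ j, W K (F j) n)) = 1 := by
  have hn : n ≠ 0 := by have := (h2 j₁).2 (.inl rfl); omega
  have h4 : ∀ x ∈ [∑ i, X i], x ∈ Ideal.span (Set.range (X : σ → MvPolynomial σ K)) := by
    simp [sum_mem]
  refine IsGreatest.csSup_eq ⟨⟨_, rfl, h4, (isWeaklyRegular_singleton_iff _ _).2
    (reg1.2 (sreg n h1)), top' hn j₁ h4⟩, ?_⟩
  rintro _ ⟨_ | ⟨f, _ | ⟨g, rs⟩⟩, rfl, h5, h6⟩
  · simp
  · simp
  have e : ⨅ j, W K (F j) n = W K (F j₁) n ⊓ ⨅ j : {j // j ≠ j₁}, W K (F j) n := by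
    classical
    rw [iInf_split_single _ j₁, iInf_subtype']
  have h12' : j₂ ≠ j₁ := fun e => (h1 j₁).elim fun i h => h12 i h (e ▸ h)
  have hr : ∀ f ∈ Ideal.span (Set.range (X : σ → MvPolynomial σ K)), ∃ t, f ^ t * monomial α 1 ∈
      W K (F j₁) n ⊔ ⨅ j : {j // j ≠ j₁}, W K (F j) n := fun f hf =>
    (Ideal.span_le (I := Ideal.radical (Submodule.comap (LinearMap.mulRight (MvPolynomial σ K) (monomial α 1))
      (W K (F j₁) n ⊔ ⨅ j : {j // j ≠ j₁}, W K (F j) n)))).2 (by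
      rintro _ ⟨i, rfl⟩
      refine ⟨n, ?_⟩
      change (X i : MvPolynomial σ K) ^ n * monomial α 1 ∈ W K (F j₁) n ⊔ _
      rw [X_pow_eq_monomial, monomial_mul]
      by_cases hi : i ∈ F j₁
      · refine Ideal.mem_sup_right (Ideal.mem_iInf.2 fun j => mono_mem _ ?_)
        rw [wt_add, wt_single]
        by_cases hj : j = j₂
        · rw [hj, if_neg (h12 i hi)]; omega
        · have := mt (h2 j).1 (not_or.2 ⟨j.2, hj⟩)
          omega
      · exact Ideal.mem_sup_left (mono_mem _ (by rw [wt_add, wt_single, if_neg hi]; omega))) hf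
  rw [e, isRegular_cons_iff, isRegular_cons_iff] at h6
  refine (no_two (fun h => ?_) (hr f (h5 _ (by simp))) (hr g (h5 _ (by simp))) (hr _ sum_mem)
    (sum_reg (h1 j₁) n) (sreg n fun j => h1 _) h6.1 h6.2.1).elim
  obtain ⟨p, hp, q, hq, e⟩ := Submodule.mem_sup.1 h
  simpa [hp α ((h2 _).2 (.inl rfl)), Ideal.mem_iInf.1 hq ⟨j₂, h12'⟩ α ((h2 _).2 (.inr rfl))] using
    congrArg (coeff α) e

/-- The facets of the example. -/
def Fc (k : ℕ) : Bool × Option (Fin k) → Finset (Bool × Fin (k + 1))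
  | (ε, none) => {v | v.1 = ε}
  | (ε, some i) => {v | (v.1 = ε ∧ v.2 ≠ i.succ) ∨ v = (!ε, i.castSucc) ∨ v = (!ε, 0)}

theorem wt0 {k : ℕ} (ε : Bool) (a : Bool × Fin (k + 1) → ℕ) :
    ∑ v, (if v ∈ Fc k (ε, none) then 0 else a v) = ∑ i, a (!ε, i) := by
  cases ε <;> simp [Fc, Fintype.sum_prod_type]

theorem wt1 {k : ℕ} (ε : Bool) (i : Fin k) (a : Bool × Fin (k + 1) → ℕ) :
    ∑ v, (if v ∈ Fc k (ε, some i) then 0 else a v) =
      a (ε, i.succ) + ∑ l, if l = i.castSucc ∨ l = 0 then 0 else a (!ε, l) := by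
  cases ε <;> simp [Fc, Fintype.sum_prod_type, add_comm]

theorem hub {k m : ℕ} (hm : m ≤ ∑ i : Fin (k + 1), i.1) (a : Bool × Fin (k + 1) → ℕ) :
    ∃ j₀, ∀ j, ∑ v, (if v ∈ Fc k j then 0 else a v) < m →
      ∑ v, (if v ∈ Fc k j₀ then 0 else a v) < m ∧ ∃ v ∈ Fc k j, v ∈ Fc k j₀ := by
  by_cases h : ∃ ε i, ∑ v, (if v ∈ Fc k (ε, some i) then 0 else a v) < m
  · obtain ⟨ε, i, h⟩ := h
    exact ⟨_, fun ⟨δ, j⟩ _ => ⟨h, (δ, 0), by cases j <;> simp [Fc, (Fin.succ_ne_zero _).symm], by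
      cases ε <;> cases δ <;> simp [Fc, (Fin.succ_ne_zero _).symm]⟩⟩
  simp only [not_exists, not_lt, wt1] at h
  by_cases h' : ∀ ε, ∑ i, a (ε, i) < m
  · have : ∀ i ε, i.1 ≤ a (ε, i) := fun i => by
      induction i using Fin.induction with
      | zero => simp
      | succ i ih =>
        intro ε
        have h1 : ∑ l, (if l = i.castSucc ∨ l = 0 then 0 else a (!ε, l)) + a (!ε, i.castSucc) ≤
            ∑ l, a (!ε, l) := by
          rw [← Finset.add_sum_erase _ _ (Finset.mem_univ i.castSucc),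
            ← Finset.add_sum_erase _ _ (Finset.mem_univ i.castSucc), if_pos (.inl rfl), zero_add,
            add_comm]
          gcongr
          split_ifs <;> simp
        have := h ε i
        have := h' (!ε)
        have := ih (!ε)
        simp only [Fin.val_castSucc, Fin.val_succ] at *
        omega
    exact absurd (h' true) (not_lt.2 (hm.trans (Finset.sum_le_sum fun i _ => this i true)))
  · obtain ⟨ε, h'⟩ := not_forall.1 h'
    refine ⟨(ε, none), fun ⟨δ, j⟩ hj => ?_⟩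
    cases j with
    | some j => exact absurd (wt1 δ j a ▸ hj) (not_lt.2 (h δ j))
    | none =>
      obtain rfl : δ = ε := by
        rw [wt0] at hj
        by_contra e
        exact h' (by rwa [Bool.eq_not_iff.2 e, Bool.not_not] at hj)
      exact ⟨hj, (δ, 0), by simp [Fc], by simp [Fc]⟩

theorem main (c : ℕ) : ∃ (r : ℕ) (F : Bool × Option (Fin (4 * c + 6)) → Finset (Fin r)) (n : ℕ),
    (c + 1) * (r + 1) ≤ n ∧ 2 ∈ Len (⨅ j, W K (F j) ((c + 1) * (r + 1))) ∧
      sSup (Len (⨅ j, W K (F j) n)) = 1 := by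
  let e : Bool × Fin (4 * c + 6 + 1) ≃ Fin (8 * c + 14) :=
    Fintype.equivFinOfCardEq (by simp; omega)
  let F := fun j => (Fc (4 * c + 6) j).map e.toEmbedding
  have hF : ∀ j α, wt (F j) α = ∑ v, if v ∈ Fc _ j then 0 else α (e v) := fun j α => by
    simp [wt, F, ← e.sum_comp]
  have hm : (c + 1) * (8 * c + 14 + 1) ≤ ∑ i : Fin (4 * c + 6 + 1), i.1 := by
    have := Finset.sum_range_id_mul_two (4 * c + 6 + 1)
    rw [Fin.sum_univ_eq_sum_range fun i => i, Nat.add_sub_cancel] at *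
    nlinarith
  have h0 : ∀ j ε, j.2 ≠ none ∨ ε = j.1 → e (ε, 0) ∈ F j := by
    rintro ⟨δ, _ | j⟩ ε h
    · simpa [F, Fc] using h
    · cases ε <;> cases δ <;> simp [F, Fc, (Fin.succ_ne_zero _).symm]
  refine ⟨_, F, (∑ i : Fin (4 * c + 6 + 1), i.1) + 1, hm.trans (Nat.le_succ _),
    two (by positivity) (fun ⟨ε, j⟩ i => ?_) fun α => ?_,
    one (fun j => ⟨_, h0 j _ (.inr rfl)⟩) (true, none) (false, none) (by simp [F, Fc])
      (Finsupp.equivFunOnFinite.symm fun i => (e.symm i).2.1) fun ⟨ε, j⟩ => ?_⟩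
  · by_cases h : e (ε, 0) = i
    · cases j with
      | none => exact ⟨e (ε, 1), by simp [F, Fc], by simp [← h]⟩
      | some j => exact ⟨e (!ε, 0), h0 _ _ (by simp), by simp [← h]⟩
    · exact ⟨_, h0 _ _ (.inr rfl), h⟩
  · obtain ⟨j₀, h⟩ := hub hm fun v => α (e v)
    refine ⟨j₀, fun j hj => ?_⟩
    obtain ⟨h1, v, h2, h3⟩ := h j (hF _ _ ▸ hj)
    exact ⟨hF _ _ ▸ h1, e v, by simpa [F] using h2, by simpa [F] using h3⟩
  · rw [hF]
    cases j with
    | none => rw [wt0]; cases ε <;> simp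
    | some j =>
      rw [wt1]
      simp only [Finsupp.equivFunOnFinite_symm_apply_apply, Equiv.symm_apply_apply]
      have : ∑ l : Fin (4 * c + 6 + 1), (if l = j.castSucc ∨ l = 0 then 0 else l.1) + j.1 =
          ∑ l : Fin (4 * c + 6 + 1), l.1 := by
        rw [← Finset.add_sum_erase _ _ (Finset.mem_univ j.castSucc),
          ← Finset.add_sum_erase _ _ (Finset.mem_univ j.castSucc), if_pos (.inl rfl), zero_add,
          add_comm]
        refine congrArg _ (Finset.sum_congr rfl fun l hl => ?_)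
        split_ifs with h
        · simp [h.resolve_left (Finset.ne_of_mem_erase hl)]
        · rfl
      simp
      omega

end Pool.Agent.H.MP_1b4c08_al
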